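import Pool.Agent.NGM.StmtsK

/-!
Row NGP of table ngm: two instances of row NEG.
-/

set_option autoImplicit false

namespace Pool.Agent.NGM.H77P

open scoped Pointwise Classical
open Filter Topology

universe u

theorem sum_wk {Q : Type u} [Group Q] (hwk : WkStmt.{u}) (K : Finset Q) (hK : GenSet K) (m n : ℕ)
    (S : Finset Q) (hS : K ^ m ⊆ S) (g : Q) :
    ∑ x ∈ S, wk K n (g⁻¹ * x) * wk K m x = wk K (m + n) g := by
  obtain ⟨-, -, -, -, -, hf⟩ := hwk Q K hK n
  obtain ⟨-, hb, -⟩ := hwk Q K hK m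
  obtain ⟨-, -, hc, -⟩ := hwk Q K hK n
  rw [hf m g, ← Finset.sum_subset hS]
  · refine Finset.sum_congr rfl fun x _ => ?_
    have h : x⁻¹ * g = (g⁻¹ * x)⁻¹ := by group
    rw [h, hc, mul_comm]
  · intro x _ hx
    have h : wk K m x = 0 := by
      by_contra h0
      exact hx (hb x h0)
    rw [h, mul_zero]

theorem sum_two {Q : Type u} [Group Q] (K : Finset Q) (hK : GenSet K) (k : ℕ) (x : Q) :
    ∑ j : K × K, wk K k (x * j.1 * j.2) = (K.card : ℝ) ^ 2 * wk K (k + 2) x := by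
  have h0 : (K.card : ℝ) ≠ 0 := by
    have : K.card ≠ 0 := Finset.card_ne_zero.2 ⟨1, hK.one⟩
    exact_mod_cast this
  have h1 : wk K (k + 2) x = av K (av K (wk K k)) x := by
    unfold wk
    rw [Function.iterate_succ_apply', Function.iterate_succ_apply']
  rw [h1, Fintype.sum_prod_type]
  unfold av
  rw [← Finset.mul_sum, ← mul_assoc, ← mul_assoc]
  have h2 : (K.card : ℝ) ^ 2 * (K.card : ℝ)⁻¹ * (K.card : ℝ)⁻¹ = 1 := by
    field_simp
  rw [h2, one_mul]
  have h3 : ∀ f : Q → ℝ, ∑ s : K, f s = ∑ s ∈ K, f s := fun f => Finset.sum_coe_sort K f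
  rw [← h3 (fun s => ∑ t ∈ K, wk K k (x * s * t))]
  refine Finset.sum_congr rfl fun s _ => ?_
  exact h3 (fun t => wk K k (x * s * t))

/-- the function to which NEG is applied -/
noncomputable def Fn {Q : Type u} [Group Q] (K : Finset Q) (k : ℕ) (x : Q) (j : K × K) : ℝ :=
  (wk K k x - wk K k (x * j.1 * j.2)) / (√2 * K.card)

theorem sum_fn {Q : Type u} [Group Q] (hwk : WkStmt.{u}) (K : Finset Q) (hK : GenSet K) (k : ℕ)
    (g : Q) : ∑ x ∈ K ^ (k + 2), ∑ j : K × K, Fn K k (g⁻¹ * x) j * Fn K k x j =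
      wk K (2 * k) g - wk K (2 * k + 2) g := by
  have h0 : (K.card : ℝ) ≠ 0 := by
    have : K.card ≠ 0 := Finset.card_ne_zero.2 ⟨1, hK.one⟩
    exact_mod_cast this
  have hmono : K ^ k ⊆ K ^ (k + 2) := Finset.pow_subset_pow_right hK.one (by omega)
  have hexp : ∀ (x : Q) (j : K × K), Fn K k (g⁻¹ * x) j * Fn K k x j =
      (2 * (K.card : ℝ) ^ 2)⁻¹ * (wk K k (g⁻¹ * x) * wk K k x
        - wk K k (g⁻¹ * x) * wk K k (x * j.1 * j.2)
        - wk K k (g⁻¹ * x * j.1 * j.2) * wk K k x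
        + wk K k (g⁻¹ * (x * j.1 * j.2)) * wk K k (x * j.1 * j.2)) := by
    intro x j
    unfold Fn
    have h1 : g⁻¹ * (x * j.1 * j.2) = g⁻¹ * x * j.1 * j.2 := by group
    rw [h1, div_mul_div_comm]
    have h2 : (√2 * (K.card : ℝ)) * (√2 * (K.card : ℝ)) = 2 * (K.card : ℝ) ^ 2 := by
      have h3 : √(2 : ℝ) * √2 = 2 := Real.mul_self_sqrt (by norm_num)
      calc (√2 * (K.card : ℝ)) * (√2 * (K.card : ℝ)) = (√2 * √2) * (K.card : ℝ) ^ 2 := by ring
        _ = _ := by rw [h3]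
    rw [h2, div_eq_inv_mul]
    ring
  simp only [hexp]
  simp only [← Finset.mul_sum, Finset.sum_add_distrib, Finset.sum_sub_distrib]
  have hcard : ((Finset.univ : Finset (K × K)).card : ℝ) = (K.card : ℝ) ^ 2 := by
    rw [Finset.card_univ, Fintype.card_prod, Fintype.card_coe]
    push_cast
    ring
  have t1 : ∑ x ∈ K ^ (k + 2), wk K k (g⁻¹ * x) * ∑ _j : K × K, wk K k x =
      (K.card : ℝ) ^ 2 * wk K (2 * k) g := by
    simp only [Finset.sum_const, nsmul_eq_mul, hcard]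
    rw [two_mul, ← sum_wk hwk K hK k k _ hmono g, Finset.mul_sum]
    refine Finset.sum_congr rfl fun x _ => ?_
    ring
  have t2 : ∑ x ∈ K ^ (k + 2), wk K k (g⁻¹ * x) * ∑ j : K × K, wk K k (x * j.1 * j.2) =
      (K.card : ℝ) ^ 2 * wk K (2 * k + 2) g := by
    have e : 2 * k + 2 = (k + 2) + k := by ring
    rw [e, ← sum_wk hwk K hK (k + 2) k _ subset_rfl g, Finset.mul_sum]
    refine Finset.sum_congr rfl fun x _ => ?_
    rw [sum_two K hK]
    ring
  have t3 : ∑ x ∈ K ^ (k + 2), ∑ j : K × K, wk K k (g⁻¹ * x * j.1 * j.2) * wk K k x =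
      (K.card : ℝ) ^ 2 * wk K (2 * k + 2) g := by
    have e : 2 * k + 2 = k + (k + 2) := by ring
    rw [e, ← sum_wk hwk K hK k (k + 2) _ hmono g, Finset.mul_sum]
    refine Finset.sum_congr rfl fun x _ => ?_
    rw [← Finset.sum_mul, sum_two K hK]
    ring
  have t4 : ∑ x ∈ K ^ (k + 2), ∑ j : K × K,
      wk K k (g⁻¹ * (x * j.1 * j.2)) * wk K k (x * j.1 * j.2) =
      (K.card : ℝ) ^ 2 * wk K (2 * k) g := by
    rw [Finset.sum_comm]
    have h5 : ∀ j : K × K, ∑ x ∈ K ^ (k + 2),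
        wk K k (g⁻¹ * (x * j.1 * j.2)) * wk K k (x * j.1 * j.2) = wk K (2 * k) g := by
      intro j
      have h6 : K ^ k ⊆ (K ^ (k + 2)).image fun x => x * (j.1 : Q) * (j.2 : Q) := by
        intro y hy
        rw [Finset.mem_image]
        refine ⟨y * (j.2 : Q)⁻¹ * (j.1 : Q)⁻¹, ?_, by group⟩
        rw [pow_succ, pow_succ]
        exact Finset.mul_mem_mul (Finset.mul_mem_mul hy (hK.inv _ j.2.2)) (hK.inv _ j.1.2)
      rw [two_mul, ← sum_wk hwk K hK k k _ h6 g, Finset.sum_image]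
      intro a _ b _ hab
      exact mul_right_cancel (mul_right_cancel hab)
    simp only [h5, Finset.sum_const, nsmul_eq_mul, hcard]
  rw [t1, t2, t3, t4]
  field_simp
  ring

/-- NGP. -/
theorem ngp (hwk : WkStmt.{u}) (hneg : NegStmt.{u}) : NgpStmt.{u} := by
  intro Q _ K hK k
  obtain ⟨-, hb, -⟩ := hwk Q K hK k
  constructor
  · have h := hneg Q PUnit (K ^ k) (fun x _ => wk K k x) (fun x hx _ => by
      by_contra h0
      exact hx (hb x h0))
    have e : (fun g => pp K k - wk K (2 * k) g) = fun g => ∑ x ∈ K ^ k, ∑ _j : PUnit.{u + 1},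
        wk K k x * wk K k x - ∑ x ∈ K ^ k, ∑ _j : PUnit.{u + 1}, wk K k (g⁻¹ * x) * wk K k x := by
      funext g
      simp only [Finset.univ_unique, Finset.sum_singleton]
      have h1 := sum_wk hwk K hK k k _ subset_rfl g
      have h2 := sum_wk hwk K hK k k _ subset_rfl 1
      simp only [inv_one, one_mul] at h2
      rw [h1, h2]
      unfold pp
      rw [two_mul]
    rw [e]
    exact h
  · have hF : ∀ x, x ∉ K ^ (k + 2) → ∀ j, Fn K k x j = 0 := by
      intro x hx j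
      have h1 : wk K k x = 0 := by
        by_contra h0
        exact hx (Finset.pow_subset_pow_right hK.one (by omega) (hb x h0))
      have h2 : wk K k (x * j.1 * j.2) = 0 := by
        by_contra h0
        apply hx
        have h3 : x = x * j.1 * j.2 * (j.2 : Q)⁻¹ * (j.1 : Q)⁻¹ := by group
        rw [h3, pow_succ, pow_succ]
        exact Finset.mul_mem_mul (Finset.mul_mem_mul (hb _ h0) (hK.inv _ j.2.2)) (hK.inv _ j.1.2)
      unfold Fn
      rw [h1, h2, sub_self, zero_div]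
    have h := hneg Q (K × K) (K ^ (k + 2)) (Fn K k) hF
    have e : (fun g => aa K k - (wk K (2 * k) g - wk K (2 * k + 2) g)) =
        fun g => ∑ x ∈ K ^ (k + 2), ∑ j, Fn K k x j * Fn K k x j -
          ∑ x ∈ K ^ (k + 2), ∑ j, Fn K k (g⁻¹ * x) j * Fn K k x j := by
      funext g
      have h2 := sum_fn hwk K hK k 1
      simp only [inv_one, one_mul] at h2
      rw [sum_fn hwk K hK k g, h2]
      rfl
    rw [e]
    exact h

end Pool.Agent.NGM.H77P
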